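import Pool.Agent.H41.AUG.Stmts

/-!
# Project AUG (helper41): least tight sets and adding a cell (task AUG-TIGHT)
-/

set_option autoImplicit false

namespace Pool.Agent.H187.AUG

open Pool.Agent.H41.AUG

variable {n : ℕ}

theorem mem_nbr {U : Finset (Cell n)} {Z : Finset (Fin n)} {c : Fin n} :
    c ∈ nbr U Z ↔ ∃ s ∈ Z, (s, c) ∈ U := by
  unfold nbr
  rw [Finset.mem_filter]
  exact ⟨fun h => h.2, fun h => ⟨Finset.mem_univ _, h⟩⟩

theorem mem_tr {U : Finset (Cell n)} {s c : Fin n} : (c, s) ∈ tr U ↔ (s, c) ∈ U := by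
  unfold tr
  rw [Finset.mem_image]
  constructor
  · rintro ⟨⟨a, b⟩, h, he⟩
    rw [Prod.swap_prod_mk, Prod.mk.injEq] at he
    rw [← he.1, ← he.2]
    exact h
  · intro h
    exact ⟨(s, c), h, rfl⟩

theorem nbr_union (U : Finset (Cell n)) (Z Z' : Finset (Fin n)) :
    nbr U (Z ∪ Z') = nbr U Z ∪ nbr U Z' := by
  ext c
  simp only [mem_nbr, Finset.mem_union]
  constructor
  · rintro ⟨s, h | h, hc⟩
    · exact Or.inl ⟨s, h, hc⟩
    · exact Or.inr ⟨s, h, hc⟩
  · rintro (⟨s, h, hc⟩ | ⟨s, h, hc⟩)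
    · exact ⟨s, Or.inl h, hc⟩
    · exact ⟨s, Or.inr h, hc⟩

theorem nbr_inter (U : Finset (Cell n)) (Z Z' : Finset (Fin n)) :
    nbr U (Z ∩ Z') ⊆ nbr U Z ∩ nbr U Z' := by
  intro c
  simp only [mem_nbr, Finset.mem_inter]
  rintro ⟨s, h, hc⟩
  exact ⟨⟨s, h.1, hc⟩, ⟨s, h.2, hc⟩⟩

/-- The intersection of two tight sets is tight. -/
theorem tight_inter {U : Finset (Cell n)} {m : ℕ} (hD : DefLe U m) {Z Z' : Finset (Fin n)}
    (hZ : Tight U m Z) (hZ' : Tight U m Z') : Tight U m (Z ∩ Z') := by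
  unfold Tight at *
  have h1 := hD (Z ∩ Z')
  have h2 := hD (Z ∪ Z')
  have h3 := Finset.card_union_add_card_inter Z Z'
  have h4 := Finset.card_union_add_card_inter (nbr U Z) (nbr U Z')
  have h5 := Finset.card_le_card (nbr_inter U Z Z')
  rw [nbr_union] at h2
  omega

/-- The least tight set exists. -/
theorem exists_min {U : Finset (Cell n)} {m : ℕ} (hD : DefLe U m) (hT : ∃ Z, Tight U m Z) :
    ∃ S, MinTight U m S := by
  classical
  obtain ⟨Z0, hZ0⟩ := hT
  obtain ⟨S, hS, hmin⟩ := Finset.exists_min_image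
    ((Finset.univ : Finset (Finset (Fin n))).filter (fun Z => Tight U m Z)) Finset.card
    ⟨Z0, Finset.mem_filter.2 ⟨Finset.mem_univ _, hZ0⟩⟩
  have hS' := (Finset.mem_filter.1 hS).2
  refine ⟨S, hS', fun Z hZ => ?_⟩
  have h1 := tight_inter hD hS' hZ
  have h2 := hmin (S ∩ Z) (Finset.mem_filter.2 ⟨Finset.mem_univ _, h1⟩)
  have h3 := Finset.eq_of_subset_of_card_le (Finset.inter_subset_left (s₁ := S) (s₂ := Z)) h2
  rw [← h3]
  exact Finset.inter_subset_right

/-- The deficiency of the transpose. -/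
theorem def_tr {U : Finset (Cell n)} {m : ℕ} (hD : DefLe U m) : DefLe (tr U) m := by
  intro Y
  have h1 := hD (nbr (tr U) Y)ᶜ
  have h2 : nbr U (nbr (tr U) Y)ᶜ ⊆ Yᶜ := by
    intro c hc
    obtain ⟨s, hs, hsc⟩ := mem_nbr.1 hc
    rw [Finset.mem_compl] at hs ⊢
    intro hcY
    exact hs (mem_nbr.2 ⟨c, hcY, mem_tr.2 hsc⟩)
  have h3 := Finset.card_le_card h2
  rw [Finset.card_compl, Fintype.card_fin] at h1 h3
  have h4 : Y.card ≤ n := by
    have := Finset.card_le_univ Y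
    rwa [Fintype.card_fin] at this
  have h5 : (nbr (tr U) Y).card ≤ n := by
    have := Finset.card_le_univ (nbr (tr U) Y)
    rwa [Fintype.card_fin] at this
  omega

/-- The tight sets of the transpose. -/
theorem tight_tr {U : Finset (Cell n)} {m : ℕ} (hD : DefLe U m) {Z : Finset (Fin n)}
    (hZ : Tight U m Z) : Tight (tr U) m (nbr U Z)ᶜ := by
  have h1 := def_tr hD (nbr U Z)ᶜ
  have h2 : nbr (tr U) (nbr U Z)ᶜ ⊆ Zᶜ := by
    intro s hs
    obtain ⟨c, hc, hsc⟩ := mem_nbr.1 hs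
    rw [Finset.mem_compl] at hc ⊢
    intro hsZ
    exact hc (mem_nbr.2 ⟨s, hsZ, mem_tr.1 hsc⟩)
  have h3 := Finset.card_le_card h2
  unfold Tight at *
  rw [Finset.card_compl, Fintype.card_fin] at h1 h3 ⊢
  have h4 : Z.card ≤ n := by
    have := Finset.card_le_univ Z
    rwa [Fintype.card_fin] at this
  have h5 : (nbr U Z).card ≤ n := by
    have := Finset.card_le_univ (nbr U Z)
    rwa [Fintype.card_fin] at this
  omega

/-- **A2.** -/
theorem tight : S_TIGHT := by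
  intro n m U hD hT
  refine ⟨exists_min hD hT, def_tr hD, ?_⟩
  obtain ⟨Z, hZ⟩ := hT
  exact exists_min (def_tr hD) ⟨_, tight_tr hD hZ⟩

/-- **A2'.** -/
theorem add : S_ADD := by
  intro n m U S T s c hD hS hT hs hc Z
  have hmono : nbr U Z ⊆ nbr (insert (s, c) U) Z := by
    intro d hd
    obtain ⟨x, hx, hxd⟩ := mem_nbr.1 hd
    exact mem_nbr.2 ⟨x, hx, Finset.mem_insert_of_mem hxd⟩
  rcases le_or_gt Z.card ((nbr U Z).card + m) with h1 | h1
  · exact h1.trans (Nat.add_le_add_right (Finset.card_le_card hmono) m)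
  · have h2 := hD Z
    have hZ : Tight U (m + 1) Z := by
      unfold Tight
      omega
    have h3 : s ∈ Z := hS.2 Z hZ hs
    have h4 : c ∉ nbr U Z := Finset.mem_compl.1 (hT.2 _ (tight_tr hD hZ) hc)
    have h5 : insert c (nbr U Z) ⊆ nbr (insert (s, c) U) Z := by
      intro d hd
      rcases Finset.mem_insert.1 hd with h6 | h6
      · rw [h6]
        exact mem_nbr.2 ⟨s, h3, Finset.mem_insert_self _ _⟩
      · exact hmono h6
    have h6 := Finset.card_le_card h5
    rw [Finset.card_insert_of_notMem h4] at h6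
    omega

end Pool.Agent.H187.AUG
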